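import Pool.Agent.Lib.MP_5fcc10_co.Core2

/-! Decomposition of a fractional weighting into `D` disjoint injections (module KD). -/

set_option linter.unusedSectionVars false

namespace Pool.Agent.SK.Lin

open Finset

namespace KDaux

open Classical in
/-- fractional Hall theorem -/
lemma frac {X Y : Type*} [Fintype X] [Fintype Y] (w : X → Y → ℝ)
    (h0 : ∀ x y, 0 ≤ w x y) (hrow : ∀ x, ∑ y, w x y = 1) (hcol : ∀ y, ∑ x, w x y ≤ 1) :
    ∃ f : X → Y, Function.Injective f ∧ ∀ x, w x (f x) ≠ 0 := by
  have := hall_frac (fun x => (univ : Finset Y).filter (fun y => w x y ≠ 0)) w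
    (fun x y _ => h0 x y) (fun x => by
      rw [← hrow x]
      refine sum_subset (filter_subset _ _) (fun y _ hy => ?_)
      by_contra hcon
      exact hy (mem_filter.2 ⟨mem_univ _, hcon⟩)) univ (fun x => filter_subset _ _)
    (fun y _ => le_trans (sum_le_sum_of_subset_of_nonneg (filter_subset _ _)
      (fun x _ _ => h0 x y)) (hcol y))
  obtain ⟨f, hf, hN⟩ := this
  exact ⟨f, hf, fun x => (mem_filter.1 (hN x)).2⟩

open Classical in
/-- König's theorem: decomposition of a bipartite graph into matchings -/
lemma koenig {α β : Type*} [Fintype α] [Fintype β] (D : ℕ) (H : α → β → Prop)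
    (hrow : ∀ a, ((univ : Finset β).filter (fun b => H a b)).card = D)
    (hcol : ∀ b, ((univ : Finset α).filter (fun a => H a b)).card ≤ D) :
    ∃ f : Fin D → α → β, (∀ j, Function.Injective (f j)) ∧ (∀ j a, H a (f j a)) ∧
      ∀ a j j', f j a = f j' a → j = j' := by
  induction D generalizing H with
  | zero => exact ⟨fun j => j.elim0, fun j => j.elim0, fun j => j.elim0, fun _ j => j.elim0⟩
  | succ D ih =>
    have hD : (0 : ℝ) < (D : ℝ) + 1 := by positivity
    let W : α ⊕ β → β ⊕ α → ℝ := fun x y => match x, y with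
      | Sum.inl a, Sum.inl b => if H a b then 1 / ((D : ℝ) + 1) else 0
      | Sum.inl _, Sum.inr _ => 0
      | Sum.inr b, Sum.inl b' => if b = b' then
          1 - (((univ : Finset α).filter (fun a => H a b)).card : ℝ) / ((D : ℝ) + 1) else 0
      | Sum.inr b, Sum.inr a => if H a b then 1 / ((D : ℝ) + 1) else 0
    have hdeg : ∀ b, (((univ : Finset α).filter (fun a => H a b)).card : ℝ) / ((D : ℝ) + 1) ≤ 1 := by
      intro b
      rw [div_le_one hD]
      have := hcol b
      exact_mod_cast this
    have hsa : ∀ a, ∑ b, (if H a b then 1 / ((D : ℝ) + 1) else 0) = 1 := by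
      intro a
      rw [← sum_filter, sum_const, hrow a, nsmul_eq_mul]
      push_cast
      field_simp
    have hsb : ∀ b, ∑ a, (if H a b then 1 / ((D : ℝ) + 1) else 0)
        = (((univ : Finset α).filter (fun a => H a b)).card : ℝ) / ((D : ℝ) + 1) := by
      intro b
      rw [← sum_filter, sum_const, nsmul_eq_mul]
      ring
    obtain ⟨f, hinj, hf⟩ := frac W (by
      rintro (a | b) (b' | a')
      · simp only [W]; split_ifs <;> positivity
      · simp only [W]; exact le_rfl
      · simp only [W]; split_ifs
        · have := hdeg b; linarith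
        · exact le_rfl
      · simp only [W]; split_ifs <;> positivity) (by
      rintro (a | b)
      · rw [Fintype.sum_sum_type]
        simp only [W, sum_const_zero, add_zero]
        exact hsa a
      · rw [Fintype.sum_sum_type]
        simp only [W]
        rw [hsb, sum_ite_eq, if_pos (mem_univ _)]
        ring) (by
      rintro (b | a)
      · rw [Fintype.sum_sum_type]
        simp only [W]
        rw [hsb, sum_ite_eq', if_pos (mem_univ _)]
        linarith
      · rw [Fintype.sum_sum_type]
        simp only [W, sum_const_zero, zero_add]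
        exact (hsa a).le)
    have hg : ∀ a, ∃ b, f (Sum.inl a) = Sum.inl b ∧ H a b := by
      intro a
      have h1 := hf (Sum.inl a)
      rcases h2 : f (Sum.inl a) with b | a'
      · rw [h2] at h1
        refine ⟨b, rfl, ?_⟩
        by_contra hcon
        simp [W, hcon] at h1
      · rw [h2] at h1
        simp [W] at h1
    choose g hg1 hg2 using hg
    have hginj : Function.Injective g := by
      intro a a' h
      have : f (Sum.inl a) = f (Sum.inl a') := by rw [hg1, hg1, h]
      exact Sum.inl_injective (hinj this)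
    have hsurj : Function.Surjective f := by
      have hc : Fintype.card (α ⊕ β) = Fintype.card (β ⊕ α) := by
        rw [Fintype.card_sum, Fintype.card_sum, add_comm]
      exact ((Fintype.bijective_iff_injective_and_card f).2 ⟨hinj, hc⟩).2
    have hfull : ∀ b, ((univ : Finset α).filter (fun a => H a b)).card = D + 1 →
        ∃ a, g a = b := by
      intro b hb
      obtain ⟨x, hx⟩ := hsurj (Sum.inl b)
      rcases x with a | b'
      · refine ⟨a, ?_⟩
        have := (hg1 a).symm.trans hx
        exact Sum.inl_injective this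
      · exfalso
        have h1 := hf (Sum.inr b')
        rw [hx] at h1
        simp only [W] at h1
        by_cases hbb : b' = b
        · subst hbb
          rw [if_pos rfl, hb] at h1
          apply h1
          push_cast
          field_simp
          ring
        · rw [if_neg hbb] at h1
          exact h1 rfl
    obtain ⟨f', h1', h2', h3'⟩ := ih (fun a b => H a b ∧ g a ≠ b) (by
      intro a
      have hr : (((univ : Finset β).filter (fun b => H a b)).erase (g a)).card = D := by
        rw [card_erase_of_mem (mem_filter.2 ⟨mem_univ _, hg2 a⟩), hrow a]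
        rfl
      convert hr using 2
      ext b
      simp only [mem_filter, mem_univ, true_and, mem_erase]
      constructor
      · rintro ⟨h1, h2⟩; exact ⟨fun h => h2 h.symm, h1⟩
      · rintro ⟨h1, h2⟩; exact ⟨h2, fun h => h1 h.symm⟩) (by
      intro b
      by_cases hb : ((univ : Finset α).filter (fun a => H a b)).card = D + 1
      · obtain ⟨a, ha⟩ := hfull b hb
        have hr : (((univ : Finset α).filter (fun a => H a b)).erase a).card ≤ D := by
          rw [card_erase_of_mem (mem_filter.2 ⟨mem_univ _, by rw [← ha]; exact hg2 a⟩), hb]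
          simp
        refine (card_le_card ?_).trans hr
        intro a' ha'
        simp only [mem_filter, mem_univ, true_and, mem_erase] at ha' ⊢
        refine ⟨?_, ha'.1⟩
        rintro rfl
        exact ha'.2 ha
      · have h1 := hcol b
        have h2 : ((univ : Finset α).filter (fun a => H a b)).card ≤ D := by omega
        refine (card_le_card ?_).trans h2
        intro a' ha'
        simp only [mem_filter, mem_univ, true_and] at ha' ⊢
        exact ha'.1)
    refine ⟨Fin.cons g f', ?_, ?_, ?_⟩
    · intro j
      refine Fin.cases ?_ (fun j => ?_) j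
      · simpa using hginj
      · simpa using h1' j
    · intro j a
      refine Fin.cases ?_ (fun j => ?_) j
      · simpa using hg2 a
      · simpa using (h2' j a).1
    · intro a j j'
      refine Fin.cases ?_ (fun j => ?_) j
      · refine Fin.cases ?_ (fun j' => ?_) j'
        · intro _; rfl
        · intro h
          simp only [Fin.cons_zero, Fin.cons_succ] at h
          exact absurd h (h2' j' a).2
      · refine Fin.cases ?_ (fun j' => ?_) j'
        · intro h
          simp only [Fin.cons_zero, Fin.cons_succ] at h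
          exact absurd h.symm (h2' j a).2
        · intro h
          simp only [Fin.cons_succ] at h
          rw [h3' a j j' h]

open Classical in
/-- rounding a fractional weighting -/
lemma round {α β : Type*} [Fintype α] [Fintype β] (D : ℕ)
    (w : α → β → ℝ) (h0 : ∀ a b, 0 ≤ w a b) (h1 : ∀ a b, w a b ≤ 1)
    (hrow : ∀ a, ∑ b, w a b = D) (hcol : ∀ b, ∑ a, w a b ≤ D) :
    ∃ H : α → β → Prop, (∀ a b, H a b → w a b ≠ 0) ∧
      (∀ a, ((univ : Finset β).filter (fun b => H a b)).card = D) ∧
      (∀ b, ((univ : Finset α).filter (fun a => H a b)).card ≤ D) := by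
  rcases Nat.eq_zero_or_pos D with hD0 | hD0
  · subst hD0
    exact ⟨fun _ _ => False, fun _ _ h => h.elim, fun a => by simp, fun b => by simp⟩
  have hD : (0 : ℝ) < D := by exact_mod_cast hD0
  let W : (α × Fin D) ⊕ (α × β) → (α × β) ⊕ (β × Fin D) → ℝ := fun x y => match x, y with
    | Sum.inl x, Sum.inl y => if x.1 = y.1 then w y.1 y.2 / D else 0
    | Sum.inl _, Sum.inr _ => 0
    | Sum.inr x, Sum.inl y => if x = y then 1 - w x.1 x.2 else 0
    | Sum.inr x, Sum.inr y => if x.2 = y.1 then w x.1 x.2 / D else 0
  obtain ⟨f, hinj, hf⟩ := frac W (by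
    rintro (x | x) (y | y)
    · simp only [W]; split_ifs
      · exact div_nonneg (h0 _ _) hD.le
      · exact le_rfl
    · simp only [W]; exact le_rfl
    · simp only [W]; split_ifs
      · have := h1 x.1 x.2; linarith
      · exact le_rfl
    · simp only [W]; split_ifs
      · exact div_nonneg (h0 _ _) hD.le
      · exact le_rfl) (by
    rintro (x | x)
    · rw [Fintype.sum_sum_type]
      simp only [W, sum_const_zero, add_zero]
      rw [Fintype.sum_prod_type]
      have : ∀ a : α, ∑ b : β, (if x.1 = a then w a b / (D : ℝ) else 0)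
          = if x.1 = a then 1 else 0 := by
        intro a
        split_ifs with h
        · rw [← sum_div, hrow a, div_self hD.ne']
        · simp
      simp only [this]
      rw [sum_ite_eq, if_pos (mem_univ _)]
    · rw [Fintype.sum_sum_type]
      simp only [W]
      rw [sum_ite_eq, if_pos (mem_univ _), Fintype.sum_prod_type]
      have : ∀ b : β, ∑ _j : Fin D, (if x.2 = b then w x.1 x.2 / (D : ℝ) else 0)
          = if x.2 = b then w x.1 x.2 else 0 := by
        intro b
        split_ifs with h
        · rw [sum_const, card_univ, Fintype.card_fin, nsmul_eq_mul, mul_div_cancel₀]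
          exact hD.ne'
        · simp
      simp only [this]
      rw [sum_ite_eq, if_pos (mem_univ _)]
      ring) (by
    rintro (y | y)
    · rw [Fintype.sum_sum_type]
      simp only [W]
      rw [sum_ite_eq', if_pos (mem_univ _), Fintype.sum_prod_type]
      have : ∀ a : α, ∑ _j : Fin D, (if a = y.1 then w y.1 y.2 / (D : ℝ) else 0)
          = if a = y.1 then w y.1 y.2 else 0 := by
        intro a
        split_ifs with h
        · rw [sum_const, card_univ, Fintype.card_fin, nsmul_eq_mul, mul_div_cancel₀]
          exact hD.ne'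
        · simp
      simp only [this]
      rw [sum_ite_eq', if_pos (mem_univ _)]
      linarith
    · rw [Fintype.sum_sum_type]
      simp only [W, sum_const_zero, zero_add]
      rw [Fintype.sum_prod_type_right]
      have : ∀ b : β, ∑ a : α, (if b = y.1 then w a b / (D : ℝ) else 0)
          = if b = y.1 then (∑ a, w a b) / D else 0 := by
        intro b
        split_ifs with h
        · rw [sum_div]
        · simp
      simp only [this]
      rw [sum_ite_eq', if_pos (mem_univ _), div_le_one hD]
      exact hcol y.1)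
  have hφ : ∀ x : α × Fin D, ∃ b, f (Sum.inl x) = Sum.inl (x.1, b) ∧ w x.1 b ≠ 0 := by
    intro x
    have h1 := hf (Sum.inl x)
    rcases h2 : f (Sum.inl x) with ⟨a, b⟩ | y
    · rw [h2] at h1
      simp only [W] at h1
      by_cases hx : x.1 = a
      · rw [if_pos hx] at h1
        subst hx
        refine ⟨b, rfl, fun h => h1 ?_⟩
        rw [h, zero_div]
      · rw [if_neg hx] at h1
        exact absurd rfl h1
    · rw [h2] at h1
      exact absurd rfl h1
  choose φ hφ1 hφ2 using hφ
  have hφinj : ∀ a, Function.Injective (fun i => φ (a, i)) := by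
    intro a i i' h
    have : f (Sum.inl (a, i)) = f (Sum.inl (a, i')) := by
      rw [hφ1, hφ1]
      simp only at h
      rw [h]
    have := Sum.inl_injective (hinj this)
    exact (Prod.mk.inj this).2
  refine ⟨fun a b => ∃ i, φ (a, i) = b, ?_, ?_, ?_⟩
  · rintro a b ⟨i, rfl⟩
    exact hφ2 (a, i)
  · intro a
    have hr : ((univ : Finset (Fin D)).image (fun i => φ (a, i))).card = D := by
      rw [card_image_of_injective _ (hφinj a), card_univ, Fintype.card_fin]
    convert hr using 2
    ext b
    simp only [mem_filter, mem_univ, true_and, mem_image]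
  · intro b
    have hj : ∀ a, (∃ i, φ (a, i) = b) → ∃ j : Fin D, f (Sum.inr (a, b)) = Sum.inr (b, j) := by
      rintro a ⟨i, hi⟩
      have h1 := hf (Sum.inr (a, b))
      rcases h2 : f (Sum.inr (a, b)) with y | ⟨b', j⟩
      · exfalso
        rw [h2] at h1
        simp only [W] at h1
        by_cases hy : (a, b) = y
        · have h3 : f (Sum.inl (a, i)) = f (Sum.inr (a, b)) := by
            rw [h2, ← hy, hφ1, hi]
          exact absurd (hinj h3) (by simp)
        · rw [if_neg hy] at h1
          exact h1 rfl
      · rw [h2] at h1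
        simp only [W] at h1
        by_cases hy : b = b'
        · subst hy; exact ⟨j, rfl⟩
        · rw [if_neg hy] at h1
          exact absurd rfl h1
    have hcard : ((univ : Finset α).filter (fun a => ∃ i, φ (a, i) = b)).card
        ≤ (univ : Finset (Fin D)).card := by
      refine card_le_card_of_injOn (fun a => if h : ∃ i, φ (a, i) = b then (hj a h).choose
        else ⟨0, hD0⟩) (fun _ _ => mem_coe.2 (mem_univ _)) ?_
      intro a ha a' ha' he
      simp only [coe_filter, mem_univ, true_and, Set.mem_ofPred_eq] at ha ha'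
      simp only [ha, ha', dite_true] at he
      have e1 := (hj a ha).choose_spec
      have e2 := (hj a' ha').choose_spec
      have e3 : f (Sum.inr (a, b)) = f (Sum.inr (a', b)) := by rw [e1, e2, he]
      have := Sum.inr_injective (hinj e3)
      exact (Prod.mk.inj this).1
    rw [card_univ, Fintype.card_fin] at hcard
    convert hcard using 2
    ext a
    simp only [mem_filter]

end KDaux

theorem kd {α β : Type*} [Fintype α] [Fintype β] [DecidableEq α] [DecidableEq β] (D : ℕ)
    (w : α → β → ℝ) (h0 : ∀ a b, 0 ≤ w a b) (h1 : ∀ a b, w a b ≤ 1)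
    (hrow : ∀ a, ∑ b, w a b = D) (hcol : ∀ b, ∑ a, w a b ≤ D) :
    ∃ f : Fin D → α → β, (∀ j, Function.Injective (f j)) ∧ (∀ j a, w a (f j a) ≠ 0) ∧
      ∀ a j j', f j a = f j' a → j = j' := by
  obtain ⟨H, hH, hr, hc⟩ := KDaux.round D w h0 h1 hrow hcol
  obtain ⟨f, hf1, hf2, hf3⟩ := KDaux.koenig D H hr hc
  exact ⟨f, hf1, fun j a => hH a _ (hf2 j a), hf3⟩

open Classical in
theorem step_many {V : Type*} [Fintype V] [DecidableEq V] (G : BG V) (D : ℕ) (w : V → V → ℝ)
    (hw0 : ∀ x ∈ G.X, ∀ y ∈ G.N1 x, 0 ≤ w x y ∧ w x y ≤ 1)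
    (hsum : ∀ x ∈ G.X, ∑ y ∈ G.N1 x, w x y = D) (load : ℝ)
    (hcol : ∀ y ∈ G.Y, ∑ x ∈ G.N2 y, w x y ≤ D * (1 - load))
    (F : Finset V) (S : V → Finset V) (hS : ∀ v ∈ F, S v ⊆ G.Y)
    (hSD : ∀ v ∈ F, 1 ≤ (S v).card ∧ D ≤ (S v).card) (M : ℕ)
    (hload : ∀ y ∈ G.Y, (M : ℝ) * ∑ v ∈ F.filter (fun v => y ∈ S v), 1 / ((S v).card : ℝ) ≤ load) :
    ∃ (f : Fin D → V → V) (g : Fin D → V → Fin M → V),
      (∀ j, ∀ x ∈ G.X, f j x ∈ G.N1 x ∧ w x (f j x) ≠ 0) ∧
      (∀ j, ∀ x ∈ G.X, ∀ x' ∈ G.X, f j x = f j x' → x = x') ∧
      (∀ j, ∀ v ∈ F, ∀ r, g j v r ∈ S v) ∧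
      (∀ j, ∀ v ∈ F, ∀ v' ∈ F, ∀ r r', g j v r = g j v' r' → v = v' ∧ r = r') ∧
      (∀ j, ∀ x ∈ G.X, ∀ v ∈ F, ∀ r, f j x ≠ g j v r) ∧
      (∀ j j', ∀ x ∈ G.X, f j x = f j' x → j = j') := by
  let W : (↥G.X) ⊕ (↥F × Fin M) → V → ℝ := fun x y => match x with
    | Sum.inl x => if y ∈ G.N1 x.1 then w x.1 y else 0
    | Sum.inr v => if y ∈ S v.1.1 then (D : ℝ) * (1 / ((S v.1.1).card : ℝ)) else 0
  obtain ⟨h, hinj, hne, hdis⟩ := kd D W (by
    rintro (x | v) y
    · simp only [W]; split_ifs with hy
      · exact (hw0 x.1 x.2 y hy).1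
      · exact le_rfl
    · simp only [W]; split_ifs <;> positivity) (by
    rintro (x | v) y
    · simp only [W]; split_ifs with hy
      · exact (hw0 x.1 x.2 y hy).2
      · exact zero_le_one
    · simp only [W]; split_ifs
      · have h1 := (hSD v.1.1 v.1.2).1
        have h2 := (hSD v.1.1 v.1.2).2
        have h3 : (0 : ℝ) < ((S v.1.1).card : ℝ) := by exact_mod_cast h1
        rw [mul_one_div, div_le_one h3]
        exact_mod_cast h2
      · exact zero_le_one) (by
    rintro (x | v)
    · simp only [W]
      rw [← sum_filter, filter_mem_eq_inter, univ_inter]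
      exact hsum x.1 x.2
    · simp only [W]
      rw [← sum_filter, filter_mem_eq_inter, univ_inter, sum_const, nsmul_eq_mul]
      have h1 := (hSD v.1.1 v.1.2).1
      have h3 : (0 : ℝ) < ((S v.1.1).card : ℝ) := by exact_mod_cast h1
      field_simp) (by
    intro b
    rw [Fintype.sum_sum_type]
    by_cases hb : b ∈ G.Y
    · have hL := hcol b hb
      have hR := hload b hb
      have e1 : ∑ x : ↥G.X, W (Sum.inl x) b = ∑ x ∈ G.N2 b, w x b := by
        have : ∑ x : ↥G.X, W (Sum.inl x) b
            = ∑ x ∈ G.X, (if b ∈ G.N1 x then w x b else 0) := by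
          rw [← sum_coe_sort G.X]
        rw [this, ← sum_filter]
        refine sum_congr ?_ (fun _ _ => rfl)
        ext x
        rw [mem_filter]
        constructor
        · rintro ⟨h1, h2⟩; exact (G.sym x h1 b hb).1 h2
        · intro h1
          have h2 := G.h2 b hb h1
          exact ⟨h2, (G.sym x h2 b hb).2 h1⟩
      have e2 : ∑ v : ↥F × Fin M, W (Sum.inr v) b
          = D * ((M : ℝ) * ∑ v ∈ F.filter (fun v => b ∈ S v), 1 / ((S v).card : ℝ)) := by
        rw [Fintype.sum_prod_type]
        have : ∀ v : ↥F, ∑ _r : Fin M, W (Sum.inr (v, _r)) b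
            = (M : ℝ) * (if b ∈ S v.1 then (D : ℝ) * (1 / ((S v.1).card : ℝ)) else 0) := by
          intro v
          simp only [W]
          rw [sum_const, card_univ, Fintype.card_fin, nsmul_eq_mul]
        simp only [this]
        rw [← mul_sum, sum_coe_sort F (fun v => if b ∈ S v then (D : ℝ) * (1 / ((S v).card : ℝ)) else 0),
          ← sum_filter, ← mul_sum]
        ring
      rw [e1, e2]
      have hD : (0 : ℝ) ≤ D := Nat.cast_nonneg D
      calc _ ≤ D * (1 - load) + D * load := add_le_add hL (mul_le_mul_of_nonneg_left hR hD)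
        _ = D := by ring
    · have e1 : ∑ x : ↥G.X, W (Sum.inl x) b = 0 := by
        refine sum_eq_zero (fun x _ => ?_)
        simp only [W]
        rw [if_neg (fun h => hb (G.h1 x.1 x.2 h))]
      have e2 : ∑ v : ↥F × Fin M, W (Sum.inr v) b = 0 := by
        refine sum_eq_zero (fun v _ => ?_)
        simp only [W]
        rw [if_neg (fun h => hb (hS v.1.1 v.1.2 h))]
      rw [e1, e2, add_zero]
      exact Nat.cast_nonneg D)
  have hl : ∀ j (x : ↥G.X), h j (Sum.inl x) ∈ G.N1 x.1 ∧ w x.1 (h j (Sum.inl x)) ≠ 0 := by
    intro j x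
    have := hne j (Sum.inl x)
    simp only [W] at this
    by_cases hy : h j (Sum.inl x) ∈ G.N1 x.1
    · rw [if_pos hy] at this; exact ⟨hy, this⟩
    · rw [if_neg hy] at this; exact absurd rfl this
  have hr : ∀ j (v : ↥F) (r : Fin M), h j (Sum.inr (v, r)) ∈ S v.1 := by
    intro j v r
    have := hne j (Sum.inr (v, r))
    simp only [W] at this
    by_contra hy
    rw [if_neg hy] at this
    exact this rfl
  refine ⟨fun j x => if hx : x ∈ G.X then h j (Sum.inl ⟨x, hx⟩) else x,
    fun j v r => if hv : v ∈ F then h j (Sum.inr (⟨v, hv⟩, r)) else v, ?_, ?_, ?_, ?_, ?_, ?_⟩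
  · intro j x hx
    simp only [hx, dite_true]
    exact hl j ⟨x, hx⟩
  · intro j x hx x' hx' he
    simp only [hx, hx', dite_true] at he
    have h2 := Sum.inl.inj (hinj j he)
    exact congrArg Subtype.val h2
  · intro j v hv r
    simp only [hv, dite_true]
    exact hr j ⟨v, hv⟩ r
  · intro j v hv v' hv' r r' he
    simp only [hv, hv', dite_true] at he
    have h2 := Sum.inr.inj (hinj j he)
    have h3 := Prod.mk.inj h2
    exact ⟨congrArg Subtype.val h3.1, h3.2⟩
  · intro j x hx v hv r he
    simp only [hx, hv, dite_true] at he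
    exact absurd (hinj j he) (by simp)
  · intro j j' x hx he
    simp only [hx, dite_true] at he
    exact hdis _ j j' he

end Pool.Agent.SK.Lin
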