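import Pool.Agent.Lib.MP_5fcc10_co_lin.MidDefs

/-! Expansion of the class graph between the two middle levels of an odd cube: the deterministic
part. The isoperimetric inequality of the two middle levels and the hexagon lemma are hypotheses
of `expansion_aux`. -/

set_option linter.unusedSectionVars false

namespace Pool.Agent.SK.Lin.H68

open Finset
open scoped symmDiff

variable {n p : ℕ}

lemma op0_symm {cl : Lb p} {ψ : Ix n → Lb p} {v : Finset (Fin n)} {e : Fin n} :
    op0 cl ψ (tg v e) e ↔ op0 cl ψ v e := by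
  unfold op0; rw [opP_symm, ed_tg]

section KBl

variable {k : ℕ} {cl : Lb p} {ψ : Ix n → Lb p}

lemma mem_KB_succ {r w : Finset (Fin n)} {ρ : ℕ} : w ∈ KB k cl ψ r (ρ + 1) ↔
    w ∈ KB k cl ψ r ρ ∨ ∃ v ∈ KB k cl ψ r ρ, ∃ e ∈ nb k v, op0 cl ψ v e ∧ w = tg v e := by
  rw [KB]
  simp only [mem_filter, mem_univ, true_and]

lemma mem_KB_zero {r w : Finset (Fin n)} : w ∈ KB k cl ψ r 0 ↔ w = r := by
  rw [KB, mem_singleton]

lemma KB_succ_sub (r : Finset (Fin n)) (ρ : ℕ) : KB k cl ψ r ρ ⊆ KB k cl ψ r (ρ + 1) :=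
  fun _ hw => mem_KB_succ.2 (Or.inl hw)

lemma self_mem_KB (r : Finset (Fin n)) (ρ : ℕ) : r ∈ KB k cl ψ r ρ := by
  induction ρ with
  | zero => exact mem_KB_zero.2 rfl
  | succ ρ ih => exact KB_succ_sub r ρ ih

lemma KB_sub_ham (r : Finset (Fin n)) (ρ : ℕ) : KB k cl ψ r ρ ⊆ ham r ρ := by
  induction ρ with
  | zero =>
    intro w hw
    rw [mem_KB_zero.1 hw, mem_ham, symmDiff_self]
    simp
  | succ ρ ih =>
    intro w hw
    rw [mem_ham]
    rcases mem_KB_succ.1 hw with h | ⟨v, hv, e, _, _, rfl⟩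
    · have := mem_ham.1 (ih h); omega
    · have h1 := mem_ham.1 (ih hv)
      have h2 := symmDiff_card_triangle r v (tg v e)
      have h3 := tg_dist v e
      omega

lemma KB_trans {r w u : Finset (Fin n)} {a b : ℕ} (h1 : w ∈ KB k cl ψ r a)
    (h2 : u ∈ KB k cl ψ w b) : u ∈ KB k cl ψ r (a + b) := by
  induction b generalizing u with
  | zero => rw [mem_KB_zero.1 h2]; exact h1
  | succ b ih =>
    rcases mem_KB_succ.1 h2 with h | ⟨v, hv, e, he, ho, rfl⟩
    · exact KB_succ_sub r (a + b) (ih h)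
    · exact mem_KB_succ.2 (Or.inr ⟨v, ih hv, e, he, ho, rfl⟩)

lemma KB_symm {r w : Finset (Fin n)} {a : ℕ} (h : w ∈ KB k cl ψ r a) : r ∈ KB k cl ψ w a := by
  induction a generalizing w with
  | zero => rw [mem_KB_zero.1 h]; exact mem_KB_zero.2 rfl
  | succ a ih =>
    rcases mem_KB_succ.1 h with h | ⟨v, hv, e, he, ho, rfl⟩
    · exact KB_succ_sub w a (ih h)
    · have h1 : v ∈ KB k cl ψ (tg v e) 1 := by
        refine mem_KB_succ.2 (Or.inr ⟨tg v e, self_mem_KB _ _, e, mem_nb_tg he,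
          op0_symm.2 ho, (tg_tg v e).symm⟩)
      have h2 := KB_trans h1 (ih hv)
      rwa [add_comm] at h2

lemma inL_KB {r : Finset (Fin n)} (hr : inL k r) {ρ : ℕ} {w : Finset (Fin n)}
    (hw : w ∈ KB k cl ψ r ρ) : inL k w := by
  induction ρ generalizing w with
  | zero => rw [mem_KB_zero.1 hw]; exact hr
  | succ ρ ih =>
    rcases mem_KB_succ.1 hw with h | ⟨v, _, e, he, _, rfl⟩
    · exact ih h
    · exact inL_tg he

/-- leaving a set inside a ball -/
lemma exit_KB {Q : Finset (Finset (Fin n))} {v w : Finset (Fin n)} {ρ : ℕ} (hv : v ∈ Q)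
    (hw : w ∈ KB k cl ψ v ρ) (hwQ : w ∉ Q) :
    ∃ u ∈ KB k cl ψ v ρ, ∃ e ∈ nb k u, opP cl ψ u e ∧ u ∈ Q ∧ tg u e ∉ Q := by
  induction ρ generalizing w with
  | zero => rw [mem_KB_zero.1 hw] at hwQ; exact absurd hv hwQ
  | succ ρ ih =>
    rcases mem_KB_succ.1 hw with h | ⟨u, hu, e, he, ho, rfl⟩
    · obtain ⟨u, hu, e, he, h1, h2, h3⟩ := ih h hwQ
      exact ⟨u, KB_succ_sub v ρ hu, e, he, h1, h2, h3⟩
    · by_cases huQ : u ∈ Q
      · exact ⟨u, KB_succ_sub v ρ hu, e, he, ho.1, huQ, hwQ⟩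
      · obtain ⟨u', hu', e', he', h1, h2, h3⟩ := ih hu huQ
        exact ⟨u', KB_succ_sub v ρ hu', e', he', h1, h2, h3⟩

end KBl

lemma mem_bdy {k : ℕ} {Q : Finset (Finset (Fin n))} {x : Finset (Fin n) × Fin n} :
    x ∈ bdy k Q ↔ x.1 ∈ Q ∧ x.2 ∈ nb k x.1 ∧ tg x.1 x.2 ∉ Q := by
  unfold bdy
  rw [mem_filter, mem_product]
  simp

/-- boundary edges have different names -/
lemma ed_injOn (k : ℕ) (Q : Finset (Finset (Fin n))) :
    Set.InjOn (fun x : Finset (Fin n) × Fin n => ed x.1 x.2) (bdy k Q : Set _) := by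
  rintro ⟨v, e⟩ hx ⟨v', e'⟩ hy h
  rw [mem_coe, mem_bdy] at hx hy
  simp only [ed, Prod.mk.injEq, Option.some.injEq] at h
  obtain ⟨h1, rfl⟩ := h
  have h2 : v' = v ∨ v' = tg v e := by
    by_cases hv : e ∈ v
    · by_cases hv' : e ∈ v'
      · left
        rw [← insert_erase hv, ← insert_erase hv', h1]
      · right
        rw [tg_of_mem hv, h1, erase_eq_of_notMem hv']
    · by_cases hv' : e ∈ v'
      · right
        rw [tg_of_notMem hv, ← insert_erase hv', ← h1, erase_eq_of_notMem hv]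
      · left
        rw [← erase_eq_of_notMem hv, ← erase_eq_of_notMem hv', h1]
  rcases h2 with h2 | h2
  · rw [h2]
  · subst h2
    exact absurd hy.1 hx.2.2

open Classical in
/-- the deterministic part of the expansion of the class graph -/
theorem expansion_aux {n p k : ℕ} (hn : n = 2 * k + 1) (cl : Lb p) (ψ : Ix n → Lb p)
    (hiso : ∀ Q : Finset (Finset (Fin n)), (∀ v ∈ Q, inL k v) → Q.card ≤ n.choose k →
      Q.card ≤ 8 * (k + 1) ^ 2 * (bdy k Q).card)
    (hhex : ∀ Q : Finset (Finset (Fin n)), (∀ v ∈ Q, inL k v) →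
      (bdy k Q).card ≤ (n + 1) ^ 5 * ((bdy k Q).filter (fun x => ty ψ x.1 x.2 = cl.2)).card)
    (ρ m0 : ℕ)
    (hBS : ∀ S : Finset (Finset (Fin n)), S.Nonempty → (∀ r ∈ S, inL k r) →
      ¬ BSev k cl ρ m0 S ψ)
    (hball : ∀ r, inL k r → (m0 + 1) * (8 * (k + 1) ^ 2 * (n + 1) ^ 5)
      ≤ (KB k cl ψ r ρ).card)
    (Q : Finset (Finset (Fin n))) (hQ : ∀ v ∈ Q, inL k v) (hc : Q.card ≤ n.choose k) :
    Q.card ≤ (n + 1) ^ (4 * ρ + 8) *
      ((bdy k Q).filter (fun x => opP cl ψ x.1 x.2)).card := by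
  set DG := (bdy k Q).filter (fun x => opP cl ψ x.1 x.2) with hDG
  set Q' := Q.filter (fun v => KB k cl ψ v (2 * ρ) ⊆ Q) with hQ'
  have hQ'Q : Q' ⊆ Q := filter_subset _ _
  -- the vertices of `Q` which are not in `Q'`
  have hout : (Q \ Q').card ≤ DG.card * (n + 1) ^ (2 * ρ) := by
    have h1 : Q \ Q' ⊆ DG.biUnion (fun x => ham x.1 (2 * ρ)) := by
      intro v hv
      rw [mem_sdiff, hQ', mem_filter] at hv
      have h2 : ¬ KB k cl ψ v (2 * ρ) ⊆ Q := fun h => hv.2 ⟨hv.1, h⟩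
      obtain ⟨w, hw, hwQ⟩ := not_subset.1 h2
      obtain ⟨u, hu, e, he, ho, huQ, htQ⟩ := exit_KB hv.1 hw hwQ
      rw [mem_biUnion]
      refine ⟨(u, e), ?_, ?_⟩
      · rw [hDG, mem_filter, mem_bdy]
        exact ⟨⟨huQ, he, htQ⟩, ho⟩
      · exact KB_sub_ham _ _ (KB_symm hu)
    refine (card_le_card h1).trans (card_biUnion_le.trans ?_)
    refine (sum_le_sum (fun x _ => card_ham x.1 (2 * ρ))).trans ?_
    rw [sum_const, smul_eq_mul]
  have hsplit : Q.card = Q'.card + (Q \ Q').card := by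
    rw [add_comm, card_sdiff_add_card_eq_card hQ'Q]
  have hpow2 : 2 * (n + 1) ^ (2 * ρ) ≤ (n + 1) ^ (4 * ρ + 8) := by
    calc 2 * (n + 1) ^ (2 * ρ) ≤ (n + 1) * (n + 1) ^ (2 * ρ) :=
          Nat.mul_le_mul_right _ (by omega)
      _ = (n + 1) ^ (2 * ρ + 1) := by rw [pow_succ, mul_comm]
      _ ≤ (n + 1) ^ (4 * ρ + 8) := Nat.pow_le_pow_right (by omega) (by omega)
  by_cases hbig : Q'.card ≤ (Q \ Q').card
  · calc Q.card ≤ 2 * (Q \ Q').card := by omega
      _ ≤ 2 * (DG.card * (n + 1) ^ (2 * ρ)) := Nat.mul_le_mul_left _ hout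
      _ = 2 * (n + 1) ^ (2 * ρ) * DG.card := by ring
      _ ≤ _ := Nat.mul_le_mul_right _ hpow2
  -- now `Q'` is large
  have hQ'ne : Q'.Nonempty := by
    rw [← card_pos]; omega
  -- a maximal subset with disjoint balls
  set fam := Q'.powerset.filter (fun S => ∀ r ∈ S, ∀ r' ∈ S, r ≠ r' →
    Disjoint (KB k cl ψ r ρ) (KB k cl ψ r' ρ)) with hfam
  have hfne : fam.Nonempty := ⟨∅, by
    rw [hfam, mem_filter, mem_powerset]
    exact ⟨empty_subset _, fun r hr => absurd hr (notMem_empty r)⟩⟩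
  obtain ⟨S, hS, hmax⟩ := exists_max_image fam card hfne
  rw [hfam, mem_filter, mem_powerset] at hS
  obtain ⟨hSQ, hSd⟩ := hS
  have hcov : ∀ v ∈ Q', ∃ r ∈ S, v ∈ KB k cl ψ r (2 * ρ) := by
    intro v hv
    by_cases hvS : v ∈ S
    · exact ⟨v, hvS, self_mem_KB _ _⟩
    by_contra hno
    push Not at hno
    have hdis : ∀ r ∈ S, Disjoint (KB k cl ψ v ρ) (KB k cl ψ r ρ) := by
      intro r hr
      rw [disjoint_left]
      intro w hw1 hw2
      apply hno r hr
      have := KB_trans hw2 (KB_symm hw1)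
      rwa [← two_mul] at this
    have hins : insert v S ∈ fam := by
      rw [hfam, mem_filter, mem_powerset]
      refine ⟨insert_subset hv hSQ, ?_⟩
      intro r hr r' hr' hne
      rw [mem_insert] at hr hr'
      rcases hr with rfl | hr
      · rcases hr' with rfl | hr'
        · exact absurd rfl hne
        · exact hdis r' hr'
      · rcases hr' with rfl | hr'
        · exact (hdis r hr).symm
        · exact hSd r hr r' hr' hne
    have h1 := hmax _ hins
    rw [card_insert_of_notMem hvS] at h1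
    omega
  set K := KS k cl ψ ρ S with hK
  have hQ'K : Q' ⊆ K := by
    intro v hv
    obtain ⟨r, hr, hvr⟩ := hcov v hv
    rw [hK, KS, mem_biUnion]
    exact ⟨r, hr, hvr⟩
  have hKQ : K ⊆ Q := by
    intro v hv
    rw [hK, KS, mem_biUnion] at hv
    obtain ⟨r, hr, hvr⟩ := hv
    have h1 := hSQ hr
    rw [hQ', mem_filter] at h1
    exact h1.2 hvr
  have hSne : S.Nonempty := by
    obtain ⟨v, hv⟩ := hQ'ne
    obtain ⟨r, hr, _⟩ := hcov v hv
    exact ⟨r, hr⟩
  have hSL : ∀ r ∈ S, inL k r := fun r hr => hQ r (hQ'Q (hSQ hr))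
  have hKL : ∀ v ∈ K, inL k v := fun v hv => hQ v (hKQ hv)
  have hKup : K.card ≤ S.card * (n + 1) ^ (2 * ρ) := by
    rw [hK, KS]
    refine card_biUnion_le.trans ?_
    refine (sum_le_sum (fun r _ => (card_le_card (KB_sub_ham r (2 * ρ))).trans
      (card_ham r (2 * ρ)))).trans ?_
    rw [sum_const, smul_eq_mul]
  have hKlow : S.card * ((m0 + 1) * (8 * (k + 1) ^ 2 * (n + 1) ^ 5)) ≤ K.card := by
    have h1 : S.biUnion (fun r => KB k cl ψ r ρ) ⊆ K := by
      intro w hw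
      rw [mem_biUnion] at hw
      obtain ⟨r, hr, hwr⟩ := hw
      rw [hK, KS, mem_biUnion]
      refine ⟨r, hr, ?_⟩
      have := KB_trans hwr (self_mem_KB (k := k) (cl := cl) (ψ := ψ) w ρ)
      rwa [← two_mul] at this
    refine le_trans ?_ (card_le_card h1)
    rw [card_biUnion (fun r hr r' hr' hne => hSd r hr r' hr' hne), ← smul_eq_mul, ← sum_const]
    exact sum_le_sum (fun r hr => hball r (hSL r hr))
  have hKc : K.card ≤ n.choose k := (card_le_card hKQ).trans hc
  set Bs := (bdy k K).filter (fun x => ty ψ x.1 x.2 = cl.2) with hBs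
  have h1 : S.card * (m0 + 1) ≤ Bs.card := by
    have h2 := hiso K hKL hKc
    have h3 := hhex K hKL
    have h4 : 8 * (k + 1) ^ 2 * (bdy k K).card ≤ 8 * (k + 1) ^ 2 * ((n + 1) ^ 5 * Bs.card) :=
      Nat.mul_le_mul_left _ h3
    have h5 : (S.card * (m0 + 1)) * (8 * (k + 1) ^ 2 * (n + 1) ^ 5)
        ≤ Bs.card * (8 * (k + 1) ^ 2 * (n + 1) ^ 5) := by
      calc (S.card * (m0 + 1)) * (8 * (k + 1) ^ 2 * (n + 1) ^ 5)
          = S.card * ((m0 + 1) * (8 * (k + 1) ^ 2 * (n + 1) ^ 5)) := by ring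
        _ ≤ K.card := hKlow
        _ ≤ 8 * (k + 1) ^ 2 * (bdy k K).card := h2
        _ ≤ 8 * (k + 1) ^ 2 * ((n + 1) ^ 5 * Bs.card) := h4
        _ = Bs.card * (8 * (k + 1) ^ 2 * (n + 1) ^ 5) := by ring
    exact Nat.le_of_mul_le_mul_right h5 (by positivity)
  -- many boundary edges of `K` belong to the class
  set BG := (bdy k K).filter (fun x => opP cl ψ x.1 x.2) with hBG
  have hBGcard : S.card < BG.card := by
    set B0 := Bs.filter (fun x => ψ (ed x.1 x.2) = (cl.1, 0)) with hB0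
    set B1 := Bs.filter (fun x => ¬ ψ (ed x.1 x.2) = (cl.1, 0)) with hB1
    have hsum : B0.card + B1.card = Bs.card :=
      card_filter_add_card_filter_not (s := Bs) (fun x => ψ (ed x.1 x.2) = (cl.1, 0))
    by_cases h2 : S.card < B0.card
    · refine lt_of_lt_of_le h2 (card_le_card ?_)
      intro x hx
      rw [hB0, mem_filter, hBs, mem_filter] at hx
      rw [hBG, mem_filter]
      refine ⟨hx.1.1, ?_, hx.1.2⟩
      unfold col
      rw [hx.2]
    · have h3 : m0 * S.card ≤ B1.card := by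
        have : S.card * (m0 + 1) = m0 * S.card + S.card := by ring
        omega
      have h4 : (TS k cl ρ S ψ) = B1.image (fun x => ed x.1 x.2) := by
        rw [TS, hB1, hBs, filter_filter]
      have hinj : Set.InjOn (fun x : Finset (Fin n) × Fin n => ed x.1 x.2) (B1 : Set _) := by
        refine (ed_injOn k K).mono ?_
        intro x hx
        rw [mem_coe, hB1, mem_filter, hBs, mem_filter] at hx
        exact hx.1.1
      have h5 : (TS k cl ρ S ψ).card = B1.card := by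
        rw [h4, card_image_of_injOn hinj]
      have h6 := hBS S hSne hSL
      rw [BSev, h5] at h6
      have h7 : S.card < ((TS k cl ρ S ψ).filter (fun y => ψ y = (cl.1, 1))).card := by
        by_contra h8
        exact h6 ⟨h3, not_lt.1 h8⟩
      refine lt_of_lt_of_le h7 ?_
      have h8 : (TS k cl ρ S ψ).filter (fun y => ψ y = (cl.1, 1)) ⊆
          BG.image (fun x => ed x.1 x.2) := by
        intro y hy
        rw [mem_filter, h4, mem_image] at hy
        obtain ⟨⟨x, hx, rfl⟩, hy2⟩ := hy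
        rw [hB1, mem_filter, hBs, mem_filter] at hx
        rw [mem_image]
        refine ⟨x, ?_, rfl⟩
        rw [hBG, mem_filter]
        refine ⟨hx.1.1, ?_, hx.1.2⟩
        unfold col
        rw [hy2]
      exact (card_le_card h8).trans card_image_le
  -- such an edge leaves `Q` or ends outside `Q'`
  have hBGup : BG.card ≤ DG.card + (Q \ Q').card * n := by
    have h2 : BG ⊆ DG ∪ ((Q \ Q') ×ˢ (univ : Finset (Fin n))).image
        (fun x => (tg x.1 x.2, x.2)) := by
      intro x hx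
      rw [hBG, mem_filter, mem_bdy] at hx
      rw [mem_union]
      by_cases h3 : tg x.1 x.2 ∈ Q
      · right
        rw [mem_image]
        refine ⟨(tg x.1 x.2, x.2), ?_, ?_⟩
        · rw [mem_product, mem_sdiff]
          exact ⟨⟨h3, fun h4 => hx.1.2.2 (hQ'K h4)⟩, mem_univ _⟩
        · simp only [tg_tg]
      · left
        rw [hDG, mem_filter, mem_bdy]
        exact ⟨⟨hKQ hx.1.1, hx.1.2.1, h3⟩, hx.2⟩
    refine (card_le_card h2).trans ((card_union_le _ _).trans ?_)
    refine Nat.add_le_add_left (card_image_le.trans ?_) _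
    rw [card_product, card_univ, Fintype.card_fin]
  have hSup : S.card ≤ DG.card * (n + 1) ^ (2 * ρ + 1) := by
    have h2 : (Q \ Q').card * n ≤ DG.card * (n + 1) ^ (2 * ρ) * n := Nat.mul_le_mul_right _ hout
    have h3 : DG.card ≤ DG.card * (n + 1) ^ (2 * ρ) :=
      Nat.le_mul_of_pos_right _ (by positivity)
    have h4 : DG.card * (n + 1) ^ (2 * ρ + 1) =
        DG.card * (n + 1) ^ (2 * ρ) + DG.card * (n + 1) ^ (2 * ρ) * n := by ring
    omega
  calc Q.card ≤ 2 * Q'.card := by omega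
    _ ≤ 2 * K.card := Nat.mul_le_mul_left _ (card_le_card hQ'K)
    _ ≤ 2 * (S.card * (n + 1) ^ (2 * ρ)) := Nat.mul_le_mul_left _ hKup
    _ ≤ 2 * (DG.card * (n + 1) ^ (2 * ρ + 1) * (n + 1) ^ (2 * ρ)) :=
        Nat.mul_le_mul_left _ (Nat.mul_le_mul_right _ hSup)
    _ = (2 * (n + 1) ^ (4 * ρ + 1)) * DG.card := by
        have : 4 * ρ + 1 = (2 * ρ + 1) + 2 * ρ := by ring
        rw [this, pow_add]; ring
    _ ≤ ((n + 1) ^ (4 * ρ + 8)) * DG.card := by
        refine Nat.mul_le_mul_right _ ?_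
        calc 2 * (n + 1) ^ (4 * ρ + 1) ≤ (n + 1) * (n + 1) ^ (4 * ρ + 1) :=
              Nat.mul_le_mul_right _ (by omega)
          _ = (n + 1) ^ (4 * ρ + 2) := by
              rw [mul_comm, ← pow_succ]
          _ ≤ (n + 1) ^ (4 * ρ + 8) := Nat.pow_le_pow_right (by omega) (by omega)

end Pool.Agent.SK.Lin.H68
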